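import Pool.Agent.H33.PrimDefs
import Pool.Agent.H14.Skew

set_option autoImplicit false

namespace Pool.Agent.Results.MP_150040_al.Q1

open Pool.Agent.H33.Prim Pool.Agent.H14.Skew MulOpposite

abbrev K : Type := AlgebraicClosure (ZMod 2)

noncomputable def sg : K →+* K := frobenius K 2

abbrev R : Type := SP sg

lemma sg_pow (n : ℕ) (c : K) : (sg ^ n) c = c ^ 2 ^ n := by
  induction n with
  | zero => simp
  | succ n ih =>
    rw [pow_succ', RingHom.mul_def, RingHom.comp_apply, ih, sg, frobenius_def, ← pow_mul, ← pow_succ]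

lemma sg_sep {i j : ℕ} (h : i < j) : ∃ c : K, (sg ^ j) c ≠ (sg ^ i) c := by
  by_contra hc
  push Not at hc
  have h1 : (Polynomial.X ^ 2 ^ j - Polynomial.X ^ 2 ^ i : Polynomial K) = 0 := by
    apply Polynomial.funext
    intro c
    simp [← sg_pow, hc c]
  have h2 := congrArg (fun p => Polynomial.coeff p (2 ^ j)) h1
  have h3 : 2 ^ j ≠ 2 ^ i := (Nat.pow_lt_pow_right (by norm_num) h).ne'
  simp [Polynomial.coeff_X_pow, h3] at h2

lemma co_mul_cst (p : R) (c : K) (m : ℕ) :
    co sg m (p * mono sg 0 c) = co sg m p * (sg ^ m) c := by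
  induction p using ind with
  | h0 => simp
  | ha p q hp hq => simp only [add_mul, map_add, hp, hq]
  | hm n a =>
    rw [mono_mul, co_mono, co_mono, add_zero]
    split_ifs with h
    · rw [h]
    · simp

lemma co_cst_mul (p : R) (c : K) (m : ℕ) : co sg m (mono sg 0 c * p) = c * co sg m p := by
  have := co_mono_mul (σ := sg) 0 c p m
  simpa using this

lemma ideal_pow (J : TwoSidedIdeal R) (N : ℕ) : ∀ p ∈ J, p ≠ 0 →
    (∀ m, N ≤ m → co sg m p = 0) → ∃ n, mono sg n 1 ∈ J := by
  induction N with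
  | zero => intro p _ h0 h; exact absurd (ext fun n => by rw [h n (Nat.zero_le _), map_zero]) h0
  | succ N ih =>
    intro p hp h0 h
    by_cases h1 : ∃ i < N, co sg i p ≠ 0
    · obtain ⟨i, hi, h2⟩ := h1
      obtain ⟨c, hc⟩ := sg_sep hi
      have e : ∀ m, co sg m (mono sg 0 ((sg ^ N) c) * p - p * mono sg 0 c) =
          co sg m p * ((sg ^ N) c - (sg ^ m) c) := by
        intro m
        rw [map_sub, co_cst_mul, co_mul_cst]; ring
      refine ih _ (J.sub_mem (J.mul_mem_left (mono sg 0 ((sg ^ N) c)) _ hp)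
        (J.mul_mem_right _ (mono sg 0 c) hp)) (fun h3 => ?_) fun m hm => ?_
      · have := e i
        rw [h3, map_zero] at this
        exact mul_ne_zero h2 (sub_ne_zero.2 hc) this.symm
      · rw [e]
        rcases Nat.eq_or_lt_of_le hm with rfl | hm
        · simp
        · rw [h m hm, zero_mul]
    · push Not at h1
      have e : p = mono sg N (co sg N p) := by
        refine ext fun m => ?_
        rw [co_mono]
        split_ifs with h2
        · rw [h2]
        · rcases lt_or_gt_of_ne h2 with h2 | h2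
          · exact h m h2
          · exact h1 m h2
      have h2 : co sg N p ≠ 0 := fun h2 => h0 (by rw [e, h2, map_zero])
      refine ⟨N, ?_⟩
      have := J.mul_mem_left (mono sg 0 (co sg N p)⁻¹) _ hp
      rw [e, mono_mul, co_mono] at this
      simpa [h2] using this

lemma ideal_pow' (J : TwoSidedIdeal R) (p : R) (hp : p ∈ J) (h0 : p ≠ 0) :
    ∃ n, mono sg n 1 ∈ J := by
  obtain ⟨N, hN⟩ := bdd p
  exact ideal_pow J N p hp h0 hN

noncomputable def mulK : K →+* (AddMonoid.End K)ᵐᵒᵖ where
  toFun a := op (AddMonoidHom.mulLeft a)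
  map_one' := by congr 1; ext c; exact one_mul c
  map_mul' a b := by
    rw [← op_mul]; congr 1; ext c
    change a * b * c = b * (a * c)
    ring
  map_zero' := by congr 1; ext c; exact zero_mul c
  map_add' a b := by
    rw [← op_add]; congr 1; ext c
    change (a + b) * c = a * c + b * c
    ring

noncomputable def yy : AddMonoid.End K := (frobeniusEquiv K 2).symm.toRingHom.toAddMonoidHom

noncomputable def rho : R →+* (AddMonoid.End K)ᵐᵒᵖ := lift mulK (op yy) (by
  intro a
  change op _ * op _ = op _ * op _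
  rw [← op_mul, ← op_mul]; congr 1; ext c
  change a * (frobeniusEquiv K 2).symm c = (frobeniusEquiv K 2).symm (frobeniusEquiv K 2 a * c)
  simp)

noncomputable def rho' : Rᵐᵒᵖ →+* AddMonoid.End K :=
  (RingEquiv.opOp (AddMonoid.End K)).symm.toRingHom.comp (RingHom.op rho)

lemma rho'_mono (n : ℕ) (a c : K) : rho' (op (mono sg n a)) c = (yy ^ n) (a * c) := by
  change (unop (rho (mono sg n a))) c = _
  rw [rho, lift_mono]
  rfl

lemma yy_one (n : ℕ) : (yy ^ n) 1 = 1 := by
  induction n with
  | zero => rfl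
  | succ n ih =>
    rw [pow_succ]
    change (yy ^ n) ((frobeniusEquiv K 2).symm 1) = 1
    rw [map_one, ih]

lemma prim : RightPrimitive R := by
  letI : Module Rᵐᵒᵖ K := Module.compHom K rho'
  have sm : ∀ (r : Rᵐᵒᵖ) (c : K), r • c = rho' r c := fun _ _ => rfl
  refine ⟨K, inferInstance, this, ?_, ⟨fun {r s} h => ?_⟩⟩
  · rw [isSimpleModule_iff]
    refine ⟨fun N => ?_⟩
    by_cases h : N = ⊥
    · exact Or.inl h
    · right
      obtain ⟨c, hc, h0⟩ := Submodule.exists_mem_ne_zero_of_ne_bot h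
      rw [eq_top_iff]
      intro d _
      have := N.smul_mem (op (mono sg 0 (d * c⁻¹))) hc
      rw [sm, rho'_mono, mul_assoc, inv_mul_cancel₀ h0, mul_one] at this
      exact this
  · by_contra hne
    have h1 : unop r - unop s ∈ TwoSidedIdeal.ker rho := by
      rw [TwoSidedIdeal.mem_ker, map_sub, sub_eq_zero]
      apply unop_injective
      ext c
      exact h c
    obtain ⟨n, hn⟩ := ideal_pow' _ _ h1 (sub_ne_zero.2 fun e => hne (unop_injective e))
    rw [TwoSidedIdeal.mem_ker] at hn
    have h2 := rho'_mono n 1 1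
    change (unop (rho (mono sg n 1))) 1 = _ at h2
    rw [hn, mul_one, yy_one] at h2
    exact zero_ne_one h2

lemma normal (r : R) : ∃ r' : R, mono sg 1 1 * r = r' * mono sg 1 1 := by
  induction r using ind with
  | h0 => exact ⟨0, by simp⟩
  | hm n a => exact ⟨mono sg n (sg a), by simp [mono_mul, add_comm]⟩
  | ha p q hp hq =>
    obtain ⟨p', hp⟩ := hp
    obtain ⟨q', hq⟩ := hq
    exact ⟨p' + q', by rw [mul_add, add_mul, hp, hq]⟩

lemma low_mul (n : ℕ) (p q : R)
    (h : (∀ m < n, co sg m p = 0) ∨ ∀ m < n, co sg m q = 0) : ∀ m < n, co sg m (p * q) = 0 := by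
  intro m hm
  rw [co_mul]
  refine Finset.sum_eq_zero fun ij hij => ?_
  have := Finset.HasAntidiagonal.mem_antidiagonal.1 hij
  rcases h with h | h
  · rw [h _ (by omega), zero_mul]
  · rw [h _ (by omega), map_zero, mul_zero]

lemma kill (S : Type) [Ring S] (f : R →+* S) (hf : Function.Surjective f)
    (h1 : RightPrimitive S) (h2 : SubdirectlyIndecomposable S) : f (mono sg 1 1) = 0 := by
  obtain ⟨n, hn⟩ : ∃ n, f (mono sg n 1) = 0 := by
    by_contra hc
    push Not at hc
    have hinj : ∀ p, f p = 0 → p = 0 := by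
      intro p hp
      by_contra h0
      obtain ⟨n, hn⟩ := ideal_pow' (TwoSidedIdeal.ker f) p ((TwoSidedIdeal.mem_ker _).2 hp) h0
      exact hc n ((TwoSidedIdeal.mem_ker _).1 hn)
    obtain ⟨s, hs, h⟩ := h2
    obtain ⟨p, rfl⟩ := hf s
    refine hs (by
      have : p = 0 := ext fun n => by
        let I : TwoSidedIdeal S := TwoSidedIdeal.mk' (f '' {q | ∀ m < n + 1, co sg m q = 0})
          ⟨0, fun _ _ => map_zero _, map_zero _⟩
          (by
            rintro _ _ ⟨a, ha, rfl⟩ ⟨b, hb, rfl⟩
            exact ⟨a + b, fun m hm => by rw [map_add, ha m hm, hb m hm, add_zero], map_add _ _ _⟩)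
          (by
            rintro _ ⟨a, ha, rfl⟩
            exact ⟨-a, fun m hm => by rw [map_neg, ha m hm, neg_zero], map_neg _ _⟩)
          (by
            rintro x _ ⟨a, ha, rfl⟩
            obtain ⟨x, rfl⟩ := hf x
            exact ⟨x * a, low_mul _ _ _ (Or.inr ha), map_mul _ _ _⟩)
          (by
            rintro _ x ⟨a, ha, rfl⟩
            obtain ⟨x, rfl⟩ := hf x
            exact ⟨a * x, low_mul _ _ _ (Or.inl ha), map_mul _ _ _⟩)
        have hI : I ≠ ⊥ := by
          intro h0
          have : f (mono sg (n + 1) 1) ∈ I := (TwoSidedIdeal.mem_mk' _ _ _ _ _ _ _).2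
            ⟨_, fun m hm => by rw [co_mono, if_neg hm.ne'], rfl⟩
          rw [h0] at this
          exact hc _ this
        obtain ⟨q, hq, e⟩ := (TwoSidedIdeal.mem_mk' _ _ _ _ _ _ _).1 (h I hI)
        have : q - p = 0 := hinj _ (by rw [map_sub, e, sub_self])
        rw [← sub_eq_zero.1 this, hq n (Nat.lt_succ_self n), map_zero]
      rw [this, map_zero])
  obtain ⟨M, _, _, hs, hfa⟩ := h1
  let N : Submodule Sᵐᵒᵖ M :=
    { carrier := Set.range fun m : M => op (f (mono sg 1 1)) • m
      add_mem' := by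
        rintro _ _ ⟨a, rfl⟩ ⟨b, rfl⟩
        exact ⟨a + b, smul_add _ _ _⟩
      zero_mem' := ⟨0, smul_zero _⟩
      smul_mem' := by
        rintro c _ ⟨a, rfl⟩
        obtain ⟨r, hr⟩ := hf (unop c)
        obtain ⟨r', h⟩ := normal r
        refine ⟨op (f r') • a, ?_⟩
        simp only [smul_smul]
        rw [← op_unop c, ← hr, ← op_mul, ← op_mul, ← map_mul, ← map_mul, h] }
  rcases eq_bot_or_eq_top N with h | h
  · apply op_injective
    refine hfa.eq_of_smul_eq_smul fun m => ?_
    have : op (f (mono sg 1 1)) • m ∈ N := ⟨m, rfl⟩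
    rw [h] at this
    rw [op_zero, zero_smul]
    exact this
  · exfalso
    have k : ∀ (j : ℕ) (m : M), ∃ a : M, op (f (mono sg 1 1)) ^ j • a = m := by
      intro j
      induction j with
      | zero => intro m; exact ⟨m, by simp⟩
      | succ j ih =>
        intro m
        obtain ⟨a, rfl⟩ := ih m
        obtain ⟨b, rfl⟩ : a ∈ N := h ▸ Submodule.mem_top
        exact ⟨b, by rw [pow_succ, mul_smul]⟩
    have := IsSimpleModule.nontrivial Sᵐᵒᵖ M
    obtain ⟨m, hm⟩ := exists_ne (0 : M)
    obtain ⟨a, ha⟩ := k n m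
    rw [← op_pow, ← map_pow, mono_one_pow, mul_one, hn, op_zero, zero_smul] at ha
    exact hm ha.symm

theorem result : ∃ (R : Type) (_ : Ring R), RightPrimitive R ∧
    ¬ ∃ (ι : Type) (J : ι → TwoSidedIdeal R), ⨅ i, J i = ⊥ ∧
      ∀ i, RightPrimitive (J i).ringCon.Quotient ∧
        SubdirectlyIndecomposable (J i).ringCon.Quotient := by
  refine ⟨R, inferInstance, prim, ?_⟩
  rintro ⟨ι, J, h1, h2⟩
  have h3 : mono sg 1 1 ∈ ⨅ i, J i := by
    rw [TwoSidedIdeal.mem_iInf]
    intro i
    have := kill _ (RingCon.mk' (J i).ringCon) Quotient.mk_surjective (h2 i).1 (h2 i).2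
    rw [TwoSidedIdeal.mem_iff]
    exact Quotient.exact this
  rw [h1] at h3
  have h4 := congrArg (co sg 1) (show mono sg 1 1 = 0 from h3)
  simp [co_mono] at h4

end Pool.Agent.Results.MP_150040_al.Q1
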